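import Pool.Agent.P.MP_b0c4db_lc.Main
import Pool.Agent.P.MP_b0c4db_lc.Yes
import Pool.Agent.P.MP_b0c4db_lc.H59.No

namespace Pool.Agent.P.MP_b0c4db_lc.Old.QuarterCVP

open Pool.Agent.P.MP_b0c4db_lc

/-- The closest vector problem is `NP`-hard within the factor `n ^ c` for every `c < 1 / 4`. -/
theorem result (c : ℝ) (hc : c < 1 / 4) : Hard fun n => (n : ℝ) ^ c := main yes no59 c hc

end Pool.Agent.P.MP_b0c4db_lc.Old.QuarterCVP
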